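import Pool.Agent.Y298.CA.Stm2

set_option autoImplicit false

/-! CA2-LYA: constants from a positive Lyapunov exponent (job 3214). -/

namespace Pool.Agent.Y674.CA

open Filter Topology Finset

theorem core1 (p : ℕ → ℝ) (hp : ∀ n, 0 < p n) (χ : ℝ)
    (hlim : Tendsto (fun n : ℕ => Real.log (p n) / n) atTop (𝓝 χ)) (ε : ℝ) (hε : 0 < ε) :
    ∃ C : ℝ, 1 ≤ C ∧ ∀ n : ℕ, Real.exp ((χ - ε) * n) ≤ C * p n ∧
      p n ≤ C * Real.exp ((χ + ε) * n) := by
  have h1 : ∀ᶠ n : ℕ in atTop, |Real.log (p n) / n - χ| < ε := by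
    have := (Metric.tendsto_nhds.1 hlim) ε hε
    simpa [Real.dist_eq] using this
  obtain ⟨N, hN⟩ := eventually_atTop.1 (h1.and (eventually_ge_atTop 1))
  have hnn : ∀ n ∈ range N, 0 ≤ Real.exp ((χ - ε) * n) / p n + p n / Real.exp ((χ + ε) * n) := by
    intro n _
    have := hp n
    positivity
  have hsum := sum_nonneg hnn
  refine ⟨1 + ∑ n ∈ range N, (Real.exp ((χ - ε) * n) / p n + p n / Real.exp ((χ + ε) * n)),
    by linarith, fun n => ?_⟩
  have hpn := hp n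
  rcases lt_or_ge n N with hn | hn
  · have h2 := single_le_sum hnn (mem_range.2 hn)
    have e1 : 0 ≤ Real.exp ((χ - ε) * n) / p n := by positivity
    have e2 : 0 ≤ p n / Real.exp ((χ + ε) * n) := by positivity
    constructor
    · rw [← div_le_iff₀ hpn]
      linarith
    · rw [← div_le_iff₀ (Real.exp_pos _)]
      linarith
  · obtain ⟨h2, h3⟩ := hN n hn
    have hn0 : (0 : ℝ) < n := by exact_mod_cast h3
    rw [abs_lt] at h2
    have h4 : (χ - ε) * n ≤ Real.log (p n) := by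
      rw [← le_div_iff₀ hn0]
      linarith
    have h5 : Real.log (p n) ≤ (χ + ε) * n := by
      rw [← div_le_iff₀ hn0]
      linarith
    constructor
    · have h6 := Real.exp_le_exp.2 h4
      rw [Real.exp_log hpn] at h6
      calc _ ≤ 1 * p n := by rw [one_mul]; exact h6
        _ ≤ _ := mul_le_mul_of_nonneg_right (by linarith) hpn.le
    · have h6 := Real.exp_le_exp.2 h5
      rw [Real.exp_log hpn] at h6
      calc _ ≤ 1 * Real.exp ((χ + ε) * n) := by rw [one_mul]; exact h6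
        _ ≤ _ := mul_le_mul_of_nonneg_right (by linarith) (Real.exp_pos _).le

theorem core (d : ℕ) (hd : 2 ≤ d) (p z : ℕ → ℝ) (hp0 : ∀ n, 0 ≤ p n)
    (hz : ∀ n, 0 ≤ z n ∧ z n ≤ 2) (hs : ∀ n, p (n + 1) = d * z n ^ (d - 1) * p n) (χ : ℝ)
    (hχ : 0 < χ) (hlim : Tendsto (fun n : ℕ => Real.log (p n) / n) atTop (𝓝 χ)) :
    (∀ n, 0 < p n) ∧ ∀ ε : ℝ, 0 < ε → ∃ C : ℝ, 1 ≤ C ∧ ∀ n : ℕ,
      Real.exp ((χ - ε) * n) ≤ C * p n ∧ p n ≤ C * Real.exp ((χ + ε) * n) ∧
        1 ≤ C * Real.exp (ε * n) * z n := by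
  have hp : ∀ n, 0 < p n := by
    intro k
    refine lt_of_le_of_ne (hp0 k) fun h0 => ?_
    have h1 : ∀ n, p (k + n) = 0 := by
      intro n
      induction n with
      | zero => rw [add_zero, ← h0]
      | succ n ih => rw [← add_assoc, hs, ih, mul_zero]
    have h2 : Tendsto (fun n : ℕ => Real.log (p n) / n) atTop (𝓝 0) := by
      refine tendsto_const_nhds.congr' ?_
      filter_upwards [eventually_ge_atTop k] with n hn
      have h3 := h1 (n - k)
      rw [Nat.add_sub_cancel' hn] at h3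
      rw [h3, Real.log_zero, zero_div]
    exact hχ.ne (tendsto_nhds_unique h2 hlim)
  refine ⟨hp, fun ε hε => ?_⟩
  obtain ⟨C, hC, h⟩ := core1 p hp χ hlim (ε / 2) (by linarith)
  obtain ⟨e, he⟩ : ∃ e, d = e + 2 := ⟨d - 2, by omega⟩
  have hd2 : (2 : ℝ) ≤ d := by exact_mod_cast hd
  have hpow : (1 : ℝ) ≤ 2 ^ e := one_le_pow₀ (by norm_num)
  have hexp : (1 : ℝ) ≤ Real.exp (ε / 2) := Real.one_le_exp (by linarith)
  obtain ⟨K, hK⟩ : ∃ K : ℝ, K = d * 2 ^ e * Real.exp (ε / 2) := ⟨_, rfl⟩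
  have hK1 : 1 ≤ K := by
    rw [hK]
    have : (1 : ℝ) ≤ d * 2 ^ e := by nlinarith
    nlinarith
  have hCC : C ≤ C ^ 2 * K := by
    have : C * 1 ≤ C * (C * K) := mul_le_mul_of_nonneg_left (by nlinarith) (by linarith)
    nlinarith
  refine ⟨C ^ 2 * K, hC.trans hCC, fun n => ?_⟩
  obtain ⟨h1, h2⟩ := h n
  obtain ⟨h3, -⟩ := h (n + 1)
  have hn0 : (0 : ℝ) ≤ n := Nat.cast_nonneg n
  refine ⟨?_, ?_, ?_⟩
  · calc Real.exp ((χ - ε) * n) ≤ Real.exp ((χ - ε / 2) * n) := by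
          refine Real.exp_le_exp.2 (mul_le_mul_of_nonneg_right (by linarith) hn0)
      _ ≤ C * p n := h1
      _ ≤ _ := mul_le_mul_of_nonneg_right hCC (hp n).le
  · calc p n ≤ C * Real.exp ((χ + ε / 2) * n) := h2
      _ ≤ C * Real.exp ((χ + ε) * n) := by
          refine mul_le_mul_of_nonneg_left (Real.exp_le_exp.2 ?_) (by linarith)
          exact mul_le_mul_of_nonneg_right (by linarith) hn0
      _ ≤ _ := mul_le_mul_of_nonneg_right hCC (Real.exp_pos _).le
  · obtain ⟨hz0, hz2⟩ := hz n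
    have hzp : z n ^ (d - 1) ≤ 2 ^ e * z n := by
      have e1 : d - 1 = e + 1 := by omega
      rw [e1, pow_succ]
      exact mul_le_mul_of_nonneg_right (pow_le_pow_left₀ hz0 hz2 e) hz0
    have h4 : Real.exp ((χ - ε / 2) * (n + 1)) ≤
        C * (d * (2 ^ e * z n) * (C * Real.exp ((χ + ε / 2) * n))) := by
      push_cast at h3
      rw [hs] at h3
      refine h3.trans (mul_le_mul_of_nonneg_left ?_ (by linarith))
      refine mul_le_mul ?_ h2 (hp n).le (by positivity)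
      exact mul_le_mul_of_nonneg_left hzp (by linarith)
    have h5 : Real.exp ((χ - ε / 2) * (n + 1)) =
        Real.exp ((χ + ε / 2) * n) * (Real.exp (χ - ε / 2) * Real.exp (-(ε * n))) := by
      rw [← Real.exp_add, ← Real.exp_add]
      congr 1
      ring
    rw [h5] at h4
    have h6 : Real.exp (χ - ε / 2) * Real.exp (-(ε * n)) ≤ C ^ 2 * (d * 2 ^ e) * z n := by
      refine le_of_mul_le_mul_left (h4.trans (le_of_eq ?_)) (Real.exp_pos ((χ + ε / 2) * n))
      ring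
    have h7 : Real.exp (-(ε / 2)) * Real.exp (-(ε * n)) ≤
        Real.exp (χ - ε / 2) * Real.exp (-(ε * n)) :=
      mul_le_mul_of_nonneg_right (Real.exp_le_exp.2 (by linarith)) (Real.exp_pos _).le
    have h8 : (1 : ℝ) = (Real.exp (-(ε / 2)) * Real.exp (-(ε * n))) *
        (Real.exp (ε / 2) * Real.exp (ε * n)) := by
      rw [← Real.exp_add, ← Real.exp_add, ← Real.exp_add]
      have : -(ε / 2) + -(ε * n) + (ε / 2 + ε * n) = 0 := by ring
      rw [this, Real.exp_zero]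
    rw [h8, hK]
    calc _ ≤ (C ^ 2 * (d * 2 ^ e) * z n) * (Real.exp (ε / 2) * Real.exp (ε * n)) :=
          mul_le_mul_of_nonneg_right (h7.trans h6) (by positivity)
      _ = _ := by ring

open Pool.Agent.TH279.MD Pool.Agent.Y298.SH Pool.Agent.Y298.SH.CD Pool.Agent.Y298.CA in
/-- constants for parameters with a positive Lyapunov exponent -/
theorem lya : S_LYA := by
  rintro d χ c₀ hd ⟨hχ, hM, hlim⟩
  have hbd : ∀ n, ‖zz d c₀ n‖ ≤ 2 := by
    intro j
    have h1 := (Pool.Agent.H712R2.mem_multibrot_iff hd c₀).mp hM (j + 1)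
    rw [P_succ_eq hd] at h1
    exact h1
  obtain ⟨hp, hmain⟩ := core d hd (Pd d c₀) (fun n => ‖zz d c₀ n‖) (Pd_nonneg d c₀)
    (fun n => ⟨norm_nonneg _, hbd n⟩) (Pd_succ d c₀) χ hχ hlim
  refine ⟨?_, hmain⟩
  obtain ⟨C, hC, h⟩ := hmain (χ / 2) (by linarith)
  refine ⟨C, Real.exp (χ / 2), cep_of_mem hd hC (Real.one_lt_exp_iff.2 (by linarith)) hM fun n => ?_⟩
  have h1 := (h n).1
  rw [← Real.exp_nat_mul]
  have e : (n : ℝ) * (χ / 2) = (χ - χ / 2) * n := by ring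
  rw [e]
  exact h1

end Pool.Agent.Y674.CA
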